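import Pool.Agent.Helper36.LL.Nat

/-!
A finite subset with `N` elements of a proportionately dissociated set is a union of
`O(log log N)` dissociated sets.
-/

set_option autoImplicit false

namespace Pool.Agent.Helper36.LL.Old.LogLogClasses

/-- Let every finite subset `B` of `A` contain a set with distinct subset sums of size at least
`c |B|`. Then every finite `B ⊆ A` is a union of
`16 ⌈1 / c⌉ (⌈log₂ ⌈log₂ (4 |B| + 1)⌉⌉ + 2) + 8` sets with distinct subset sums. -/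
theorem result :
    ∀ (A : Set ℕ) (c : ℝ), 0 < c →
      (∀ B : Finset ℕ, (↑B : Set ℕ) ⊆ A →
        ∃ D : Finset ℕ, D ⊆ B ∧
          (∀ X Y : Finset ℕ, X ⊆ D → Y ⊆ D → X ≠ Y → X.sum id ≠ Y.sum id) ∧
          c * (B.card : ℝ) ≤ (D.card : ℝ)) →
      ∀ B : Finset ℕ, (↑B : Set ℕ) ⊆ A →
        ∃ F : Fin (16 * ⌈1 / c⌉₊ * (Nat.clog 2 (Nat.clog 2 (4 * B.card + 1)) + 2) + 8) → Finset ℕ,
          (∀ i, ∀ X Y : Finset ℕ, X ⊆ F i → Y ⊆ F i → X ≠ Y → X.sum id ≠ Y.sum id) ∧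
          B = Finset.univ.biUnion F := by
  intro A c hc hA B hB
  have h1 : 4 * B.card < 2 ^ (2 ^ Nat.clog 2 (Nat.clog 2 (4 * B.card + 1))) := by
    have e1 : 4 * B.card + 1 ≤ 2 ^ Nat.clog 2 (4 * B.card + 1) := Nat.le_pow_clog (by norm_num) _
    have e2 : Nat.clog 2 (4 * B.card + 1) ≤ 2 ^ Nat.clog 2 (Nat.clog 2 (4 * B.card + 1)) :=
      Nat.le_pow_clog (by norm_num) _
    have e3 := Nat.pow_le_pow_right (by norm_num : 0 < 2) e2
    omega
  generalize Nat.clog 2 (Nat.clog 2 (4 * B.card + 1)) = K at h1 ⊢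
  obtain ⟨f, hf⟩ := Pool.Agent.Helper36.LL.main_nat B c hc
    (fun B' hB' => hA B' (fun x hx => hB (Finset.mem_coe.2 (hB' (Finset.mem_coe.1 hx))))) K h1
  have hcard : 16 * ⌈1 / c⌉₊ * (K + 2) + 8 = (4 * ⌈1 / c⌉₊ * (K + 2) + 2) * 4 := by ring
  refine ⟨fun i => B.filter (fun n => f n = Fin.cast hcard i), fun i => hf (Fin.cast hcard i), ?_⟩
  ext n
  simp only [Finset.mem_biUnion, Finset.mem_univ, true_and, Finset.mem_filter]
  constructor
  · intro hn
    exact ⟨Fin.cast hcard.symm (f n), hn, by simp⟩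
  · rintro ⟨i, hn, -⟩
    exact hn

end Pool.Agent.Helper36.LL.Old.LogLogClasses
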